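import Mathlib
import Pool.Agent.N399.TB.Many
import Pool.Agent.N399.TB.Blk

set_option autoImplicit false

/-!
# Tangential 2-blocks over GF(2) and branchwidth (MP_aa6b05_co)

Tutte's tangential 2-block conjecture holds for the cographic matroids of graphs of branchwidth at
most four: every 2-block over GF(2) which is the cographic matroid of a graph of branchwidth at
most four has a minor `M*(P₁₀)`, and if it is tangential it is `M*(P₁₀)`.  The Petersen graph has
branchwidth four, so this is the first value for which the Petersen graph matters.

Proof.  Let `G` be a bridgeless multigraph without nowhere-zero 4-flow and without Petersen minor,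
minimal for deletion and contraction.  Then (`N399/TB/Sep4.sep4`, new) `G` is internally
5-connected: for every set `Z` of at most four vertices and every union `I` of components of `G - Z`
one of the sets `I` and `V - I - Z` has at most two (non isolated) vertices.  The proof uses

* the claw lemma (`N399/TB/Claw.claw`): the two sides of a separation of order two or three are
  contracted to stars, and the flows of the two contractions can be glued;
* Kempe changes at edge cuts with four edges (`N399/TB/Cut5.cut5`): an edge cut with four edges has
  a side with at most two vertices.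

Hence in a branch decomposition of width four each edge of the tree has a side with at most two
inner vertices, some node of the tree is a sink, and `G` has at most `14` vertices.  But `G` has at
least `18` vertices of odd degree, by the theorem `TH362.TF.main16` of the starting library.
-/

namespace Pool.Agent.Results.MP_aa6b05_co.BranchwidthFour

/-- The incidence vector of the vertex `v` over GF(2): the coordinate of an edge is the number of
its ends which are `v`, modulo 2 (so loops give 0). -/
def star {V E : Type} [DecidableEq V] (src dst : E → V) (v : V) : E → ZMod 2 :=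
  fun e => (if src e = v then 1 else 0) + (if dst e = v then 1 else 0)

/-- The vectors `vec e` represent the cographic matroid of the graph: the linear relations between
them are exactly the elements of the cut space, which is spanned by the incidence vectors. -/
def RepresentsCographic {V E : Type} [DecidableEq V] [Fintype E] (src dst : E → V) {n : ℕ}
    (vec : E → Fin n → ZMod 2) : Prop :=
  ∀ x : E → ZMod 2, ∑ e, x e • vec e = 0 ↔
    x ∈ Submodule.span (ZMod 2) (Set.range (star src dst))

/-- The simple matroid represented by the set `S` of vectors over GF(2) is a 2-block: `S` has no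
zero vector and no linear map to the plane over GF(2) is nonzero on all of `S`. -/
def IsTwoBlock {n : ℕ} (S : Set (Fin n → ZMod 2)) : Prop :=
  (0 : Fin n → ZMod 2) ∉ S ∧
    ¬ ∃ L : (Fin n → ZMod 2) →ₗ[ZMod 2] (Fin 2 → ZMod 2), ∀ s ∈ S, L s ≠ 0

/-- `S` represents a tangential 2-block: it is a 2-block, and no proper minor without loops
(contract `C`, keep `T`) is a 2-block. This is the hypothesis of the frozen statement S10691. -/
def IsTangential {n : ℕ} (S : Set (Fin n → ZMod 2)) : Prop :=
  IsTwoBlock S ∧
    ∀ C T : Set (Fin n → ZMod 2), C ⊆ S → T ⊆ S → T ≠ S →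
      (∀ t ∈ T, t ∉ Submodule.span (ZMod 2) C) →
      ∃ L : (Fin n → ZMod 2) →ₗ[ZMod 2] (Fin 2 → ZMod 2),
        (∀ c ∈ C, L c = 0) ∧ ∀ t ∈ T, L t ≠ 0

/-- The cut space of the Petersen graph: vertices `0, ..., 9`, edges `0, ..., 14`. -/
def petersenCuts : Submodule (ZMod 2) (Fin 15 → ZMod 2) :=
  Submodule.span (ZMod 2) (Set.range (fun v : Fin 10 => fun k : Fin 15 =>
    if (![0,1,2,3,4,5,6,7,8,9,0,1,2,3,4] : Fin 15 → Fin 10) k = v ∨
       (![1,2,3,4,0,7,8,9,5,6,5,6,7,8,9] : Fin 15 → Fin 10) k = v
    then (1 : ZMod 2) else 0))

/-- The nodes on the side of `b` of the edge `ab` of the tree `T`. -/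
def SideOf {ι : Type} (T : SimpleGraph ι) (a b : ι) : Set ι :=
  {x | (T.deleteEdges {s(a, b)}).Reachable b x}

/-- The middle set of the edge `ab` of the tree: the vertices which are incident with edges of the
graph on both sides of `ab`. -/
def middle {V E ι : Type} (src dst : E → V) (T : SimpleGraph ι) (leaf : E → ι) (a b : ι) :
    Set V :=
  {v | (∃ e, (src e = v ∨ dst e = v) ∧ leaf e ∈ SideOf T a b) ∧
    ∃ e, (src e = v ∨ dst e = v) ∧ leaf e ∈ SideOf T b a}

/-- A branch decomposition of width at most `w`: a tree with all degrees at most three and an
injective map from the edges of the graph to the leaves of the tree, such that the middle sets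
have at most `w` elements. -/
structure IsBranchDecomposition {V E ι : Type} (src dst : E → V) (w : ℕ) (T : SimpleGraph ι)
    (leaf : E → ι) : Prop where
  tree : T.IsTree
  degree : ∀ i, (T.neighborSet i).ncard ≤ 3
  injective : Function.Injective leaf
  leaves : ∀ e, (T.neighborSet (leaf e)).ncard ≤ 1
  width : ∀ a b, T.Adj a b → (middle src dst T leaf a b).ncard ≤ w

/-- The branchwidth is at most `w`. -/
def BranchwidthLE {V E : Type} (src dst : E → V) (w : ℕ) : Prop :=
  ∃ (ι : Type) (_ : Fintype ι) (T : SimpleGraph ι) (leaf : E → ι),
    IsBranchDecomposition src dst w T leaf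

/-- Let `S` be a set of vectors over GF(2) which represents the cographic matroid of a graph of
branchwidth at most four (parallel elements are represented by the same vector).  If `S` is a
2-block then the minor of `S` for some `C ⊆ S` and 15 elements of `S` is the cographic matroid of
the Petersen graph; if `S` is a tangential 2-block then `S` is the cographic matroid of the Petersen
graph, in the form of the frozen statement S10691. -/
theorem result :
    ∀ (n : ℕ) (S : Set (Fin n → ZMod 2)) (V E : Type) [Fintype V] [DecidableEq V] [Fintype E]
      [DecidableEq E] (src dst : E → V) (vec : E → Fin n → ZMod 2),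
      RepresentsCographic src dst vec → Set.range vec = S → BranchwidthLE src dst 4 →
      (IsTwoBlock S → ∃ (C : Set (Fin n → ZMod 2)) (t : Fin 15 → Fin n → ZMod 2),
        C ⊆ S ∧ Set.range t ⊆ S ∧ Function.Injective t ∧
        ∀ x : Fin 15 → ZMod 2, ∑ k, x k • t k ∈ Submodule.span (ZMod 2) C ↔ x ∈ petersenCuts) ∧
      (IsTangential S → ∃ ψ : (Fin 15 → ZMod 2) →ₗ[ZMod 2] (Fin n → ZMod 2),
        LinearMap.ker ψ = petersenCuts ∧
        ⇑ψ '' Set.range (fun k : Fin 15 => (Pi.single k (1 : ZMod 2) : Fin 15 → ZMod 2)) = S) := by
  intro n S V E _ _ _ _ src dst vec hv hr hB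
  have hcls : ¬ TH676.T4.PetMinor src dst → TH462.T4.Br src dst ∅ ∅ →
      TH462.T4.FlowOn src dst ∅ ∅ := by
    intro hP hbr
    obtain ⟨ι, _, T, leaf, h⟩ := hB
    exact N399.TB.bw4 ⟨ι, inferInstance, T, leaf, h.tree, h.degree, h.injective, h.leaves,
      h.width⟩ hP hbr
  refine ⟨fun h => N399.TB.blk_minor hv hr hcls h.1 h.2, fun h => ?_⟩
  obtain ⟨C, t, hC, ht, -, hx⟩ := N399.TB.blk_minor hv hr hcls h.1.1 h.1.2
  exact N399.TB.blk_tan h.2 hC ht hx

end Pool.Agent.Results.MP_aa6b05_co.BranchwidthFour
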