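import Mathlib
import Pool.Agent.R890.FF.Blk
import Pool.Agent.N410.DC.Chain

set_option autoImplicit false

/-!
# Cographic 2-blocks: eighteen disjoint odd cuts (MP_aa6b05_co)

Let `S` represent over GF(2) the cographic matroid `M*(G)` of a graph `G` in which any 18 pairwise
disjoint sets of vertices with odd boundaries have at least 67 boundary edges in total; for example,
a graph with `n` vertices in which every vertex has at least `max (16, (n - 17) / 18)` different
neighbours.  If `S` is a 2-block then `S` has a RESTRICTION `M*(P₁₀)` (no contraction is needed), and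
if it is tangential it is `M*(P₁₀)`.  The rank and the order are unbounded.

Proof.  A 2-block has no zero vector, so `G` has no isthmus, and it has no flow over the group of
order four which is nowhere zero.  After the contraction of the chain let `H` be a quotient without
such a flow and without Petersen quotient such that all proper quotients of `H` have a flow.  At
least 18 vertices of `H` have odd degree (starting library `TH362/TF`), and no vertex has degree one
or two.  A set of `k ≥ 2` vertices of `H` spans at most `2 k - 3` edges: otherwise a minimal dense set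
has an orientation in which exactly two edges leave each vertex apart from a root (Hall), hence two
disjoint connectors (Edmonds' branching theorem), and a flow of the quotient by this set can be
lifted.  So the sum of `4 - d(y)` over the vertices `y` of `H` which are not isolated is at least six,
and this gives 18 vertices of odd degree with at most 66 edges; their classes are 18 disjoint sets of
`G`.  Hence there is no such `H`, and `G` has a Petersen quotient.  The translation to blocks is the
one of helper890 (`R890/FF/Blk.lean`).
-/

namespace Pool.Agent.Results.MP_aa6b05_co.EighteenOddCuts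

open Finset

/-- The incidence vector of the vertex `v` over GF(2): the coordinate of an edge is the number of
its ends which are `v`, modulo 2 (so loops give 0). -/
def star {V E : Type} [DecidableEq V] (src dst : E → V) (v : V) : E → ZMod 2 :=
  fun e => (if src e = v then 1 else 0) + (if dst e = v then 1 else 0)

/-- The vectors `vec e` represent the cographic matroid of the graph: the linear relations between
them are exactly the elements of the cut space, which is spanned by the incidence vectors. -/
def RepresentsCographic {V E : Type} [DecidableEq V] [Fintype E] (src dst : E → V) {n : ℕ}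
    (vec : E → Fin n → ZMod 2) : Prop :=
  ∀ x : E → ZMod 2, ∑ e, x e • vec e = 0 ↔
    x ∈ Submodule.span (ZMod 2) (Set.range (star src dst))

/-- The simple matroid represented by the set `S` of vectors over GF(2) is a 2-block: `S` has no
zero vector and no linear map to the plane over GF(2) is nonzero on all of `S`. -/
def IsTwoBlock {n : ℕ} (S : Set (Fin n → ZMod 2)) : Prop :=
  (0 : Fin n → ZMod 2) ∉ S ∧
    ¬ ∃ L : (Fin n → ZMod 2) →ₗ[ZMod 2] (Fin 2 → ZMod 2), ∀ s ∈ S, L s ≠ 0

/-- `S` represents a tangential 2-block: it is a 2-block, and no proper minor without loops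
(contract `C`, keep `T`) is a 2-block. This is the hypothesis of the frozen statement S10691. -/
def IsTangential {n : ℕ} (S : Set (Fin n → ZMod 2)) : Prop :=
  IsTwoBlock S ∧
    ∀ C T : Set (Fin n → ZMod 2), C ⊆ S → T ⊆ S → T ≠ S →
      (∀ t ∈ T, t ∉ Submodule.span (ZMod 2) C) →
      ∃ L : (Fin n → ZMod 2) →ₗ[ZMod 2] (Fin 2 → ZMod 2),
        (∀ c ∈ C, L c = 0) ∧ ∀ t ∈ T, L t ≠ 0

/-- The cut space of the Petersen graph: vertices `0, ..., 9`, edges `0, ..., 14`. -/
def petersenCuts : Submodule (ZMod 2) (Fin 15 → ZMod 2) :=
  Submodule.span (ZMod 2) (Set.range (fun v : Fin 10 => fun k : Fin 15 =>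
    if (![0,1,2,3,4,5,6,7,8,9,0,1,2,3,4] : Fin 15 → Fin 10) k = v ∨
       (![1,2,3,4,0,7,8,9,5,6,5,6,7,8,9] : Fin 15 → Fin 10) k = v
    then (1 : ZMod 2) else 0))

/-- The edges with exactly one end in `X`. -/
def boundary {V E : Type} [DecidableEq V] [Fintype E] (s t : E → V) (X : Finset V) : Finset E :=
  univ.filter (fun e => ¬ (s e ∈ X ↔ t e ∈ X))

/-- The union of the sets `C j` with `j < i`. -/
def earlier {E : Type} [DecidableEq E] {m : ℕ} (C : Fin m → Finset E) (i : Fin m) : Finset E :=
  (univ.filter (fun j => j < i)).biUnion C

/-- `H` can be added to the chain after `F`: either (short) `H` has at most four edges outside `F`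
and no bridge modulo `F`: no set `Y` of vertices without boundary edges in `F` has exactly one
boundary edge in `H`; or (doubly connected) `H` contains two disjoint sets each of which connects,
modulo `F`, whatever `H` connects: every set `Y` of vertices without boundary edges in `F` and with
a boundary edge in `H` has boundary edges in both sets. -/
def Adds {V E : Type} [DecidableEq V] [Fintype E] [DecidableEq E] (s t : E → V)
    (F H : Finset E) : Prop :=
  ((H \ F).card ≤ 4 ∧ ∀ Y : Finset V, Disjoint (boundary s t Y) F →
    (boundary s t Y ∩ H).card ≠ 1) ∨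
  ∃ T₁ T₂ : Finset E, T₁ ⊆ H ∧ T₂ ⊆ H ∧ Disjoint T₁ T₂ ∧ ∀ Y : Finset V,
    Disjoint (boundary s t Y) F → ¬ Disjoint (boundary s t Y) H →
      ¬ Disjoint (boundary s t Y) T₁ ∧ ¬ Disjoint (boundary s t Y) T₂

/-- Any 18 pairwise disjoint sets of vertices with odd boundaries which contain no edge of `F` have
at least 67 boundary edges in total. -/
def OddCutsLarge {V E : Type} [DecidableEq V] [Fintype E] [DecidableEq E] (s t : E → V)
    (F : Finset E) : Prop :=
  ∀ X : Fin 18 → Finset V, (∀ i j, i ≠ j → Disjoint (X i) (X j)) →
    (∀ i, Disjoint (boundary s t (X i)) F) → (∀ i, Odd (boundary s t (X i)).card) →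
    67 ≤ ∑ i, (boundary s t (X i)).card

/-- Every vertex has at least `k` different neighbours. -/
def Neighbours {V E : Type} (s t : E → V) (k : ℕ) : Prop :=
  ∀ v : V, ∃ W : Finset V, k ≤ W.card ∧
    ∀ w ∈ W, w ≠ v ∧ ∃ e, (s e = v ∧ t e = w) ∨ (s e = w ∧ t e = v)

/-- The graph has a chain as above and any 18 disjoint odd boundaries without edges of the chain have
at least 67 edges in total, or it is dense: every vertex has at least `k` different neighbours, and
there are at most `18 k + 17` vertices and `k ≥ 16`, or at most `17 k + 16` vertices and `k ≥ 10`, or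
at most `12 k + 11` vertices and `k ≥ 4` (the dense graphs without isthmuses satisfy the first
condition with the empty chain). -/
def LargeOddCuts {V E : Type} [Fintype V] [DecidableEq V] [Fintype E] [DecidableEq E]
    (s t : E → V) : Prop :=
  (∃ (m : ℕ) (C : Fin m → Finset E), (∀ i, Adds s t (earlier C i) (C i)) ∧
    OddCutsLarge s t (univ.biUnion C)) ∨
  ∃ k : ℕ, Neighbours s t k ∧
    ((16 ≤ k ∧ Fintype.card V < 18 * (k + 1)) ∨ (10 ≤ k ∧ Fintype.card V < 17 * (k + 1)) ∨
      (4 ≤ k ∧ Fintype.card V < 12 * (k + 1)))

/-- Let `S` be a set of vectors over GF(2) which represents the cographic matroid of a graph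
(parallel elements are represented by the same vector) with large odd cuts.  If `S` is a 2-block then
`S` contains 15 different vectors which represent the cographic matroid of the Petersen graph; if `S`
is a tangential 2-block then `S` is the cographic matroid of the Petersen graph, in the form of the
frozen statement S10691. -/
theorem result :
    ∀ (n : ℕ) (S : Set (Fin n → ZMod 2)) (V E : Type) [Fintype V] [DecidableEq V] [Fintype E]
      [DecidableEq E] (src dst : E → V) (vec : E → Fin n → ZMod 2),
      RepresentsCographic src dst vec → Set.range vec = S → LargeOddCuts src dst →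
      (IsTwoBlock S → ∃ t : Fin 15 → Fin n → ZMod 2,
        Set.range t ⊆ S ∧ Function.Injective t ∧
        ∀ x : Fin 15 → ZMod 2, ∑ k, x k • t k = 0 ↔ x ∈ petersenCuts) ∧
      (IsTangential S → ∃ ψ : (Fin 15 → ZMod 2) →ₗ[ZMod 2] (Fin n → ZMod 2),
        LinearMap.ker ψ = petersenCuts ∧
        ⇑ψ '' Set.range (fun k : Fin 15 => (Pi.single k (1 : ZMod 2) : Fin 15 → ZMod 2)) = S) := by
  intro n S V E _ _ _ _ src dst vec hv hr h7
  have hd : TH362.TF.N1 src dst Finset.univ →
      TH362.TF.NZ src dst Finset.univ ∨ TH362.TF.PQ src dst Finset.univ := by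
    intro hn
    rcases h7 with ⟨m, C, hC, hO⟩ | ⟨k, hk, h⟩
    · exact (N410.DC.Cl.of_steps hC hO).flow hn
    · exact (N410.DC.Cl.of_nbrs hn hk h).flow hn
  have main : IsTwoBlock S → ∃ t : Fin 15 → Fin n → ZMod 2,
        Set.range t ⊆ S ∧ Function.Injective t ∧
        ∀ x : Fin 15 → ZMod 2, ∑ k, x k • t k = 0 ↔ x ∈ petersenCuts := fun h =>
    R890.FF.blk1 (hv : TH676.Blk.RepCo src dst vec) hr hd h.1 h.2
  refine ⟨main, ?_⟩
  rintro ⟨h2, htan⟩
  obtain ⟨t, ht, _, hx⟩ := main h2
  exact R890.FF.blk2 htan ht hx

end Pool.Agent.Results.MP_aa6b05_co.EighteenOddCuts
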