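import Mathlib
import Pool.Agent.N399.TB.Conn
import Pool.Agent.N399.TB.Tang

set_option autoImplicit false

/-!
# Cographic tangential 2-blocks over GF(2) are internally 5-connected (MP_aa6b05_co)

By Seymour's theorem Tutte's conjecture says that `M*(P₁₀)` is the only cographic tangential
2-block.  We show that for every cographic tangential 2-block `M*(G)` the graph `G` has no circuits
of length less than five, has minimum degree at least three and is internally 5-connected: of the
two sides of a vertex separation of order `k ≤ 4` one has at most `k - 2` vertices, and every edge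
cut with at least three vertices on both sides has at least five edges.  The Petersen graph shows
that all the numbers are best possible.

Proof.  `G` has no nowhere-zero 4-flow but all its bridgeless proper minors have one.  Separations
of order three and circuits of length at most four were treated before (starting library).

* Claw lemma (`N399/TB/Claw.claw`): let the edges of `G` be partitioned into `A` and its
  complement, sharing a set `Z` of two or three vertices, up to edges at other vertices; if both
  parts contain a connected subgraph attached to all of `Z` then contracting each of them to a claw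
  gives proper minors, whose flows can be glued.  This gives: in a separation of order four with two
  inner vertices on both sides, no vertex of the separator has two edges to both sides
  (`N399/TB/Sep4.heavy`).
* Hence such a separation can be shifted to an edge cut with four edges.  For such a cut the sets of
  the flow patterns (three pairings and the constant pattern) of the two sides are closed under
  Kempe changes; every pairing which is not a pattern of one side is excluded by a star or a path
  on two vertices as a minor of the other side (`N399/TB/Cut5.cut5`).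
-/

namespace Pool.Agent.Results.MP_aa6b05_co.InternallyFiveConnected

/-- The incidence vector of the vertex `v` over GF(2): the coordinate of an edge is the number of
its ends which are `v`, modulo 2 (so loops give 0). -/
def star {V E : Type} [DecidableEq V] (src dst : E → V) (v : V) : E → ZMod 2 :=
  fun e => (if src e = v then 1 else 0) + (if dst e = v then 1 else 0)

/-- The vectors `vec e` represent the cographic matroid of the graph: the linear relations between
them are exactly the elements of the cut space, which is spanned by the incidence vectors. -/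
def RepresentsCographic {V E : Type} [DecidableEq V] [Fintype E] (src dst : E → V) {n : ℕ}
    (vec : E → Fin n → ZMod 2) : Prop :=
  ∀ x : E → ZMod 2, ∑ e, x e • vec e = 0 ↔
    x ∈ Submodule.span (ZMod 2) (Set.range (star src dst))

/-- The simple matroid represented by the set `S` of vectors over GF(2) is a 2-block: `S` has no
zero vector and no linear map to the plane over GF(2) is nonzero on all of `S`. -/
def IsTwoBlock {n : ℕ} (S : Set (Fin n → ZMod 2)) : Prop :=
  (0 : Fin n → ZMod 2) ∉ S ∧
    ¬ ∃ L : (Fin n → ZMod 2) →ₗ[ZMod 2] (Fin 2 → ZMod 2), ∀ s ∈ S, L s ≠ 0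

/-- `S` represents a tangential 2-block: it is a 2-block, and no proper minor without loops
(contract `C`, keep `T`) is a 2-block. This is the hypothesis of the frozen statement S10691. -/
def IsTangential {n : ℕ} (S : Set (Fin n → ZMod 2)) : Prop :=
  IsTwoBlock S ∧
    ∀ C T : Set (Fin n → ZMod 2), C ⊆ S → T ⊆ S → T ≠ S →
      (∀ t ∈ T, t ∉ Submodule.span (ZMod 2) C) →
      ∃ L : (Fin n → ZMod 2) →ₗ[ZMod 2] (Fin 2 → ZMod 2),
        (∀ c ∈ C, L c = 0) ∧ ∀ t ∈ T, L t ≠ 0

/-- The vertices `x` and `y` are different and joined by an edge. -/
def Adj {V E : Type} (src dst : E → V) (x y : V) : Prop :=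
  x ≠ y ∧ ∃ e, (src e = x ∧ dst e = y) ∨ (src e = y ∧ dst e = x)

/-- The edge cut `δ(Y)`: the edges with exactly one end in `Y`. -/
def cut {V E : Type} [DecidableEq V] [Fintype E] (src dst : E → V) (Y : Finset V) : Finset E :=
  Finset.univ.filter (fun e => ¬ (src e ∈ Y ↔ dst e ∈ Y))

/-- `Z` separates the vertices of `I` from the other vertices outside `Z`. -/
def Separates {V E : Type} [DecidableEq V] (src dst : E → V) (Z I : Finset V) : Prop :=
  Disjoint I Z ∧ ∀ e, (src e ∈ I ∨ dst e ∈ I) → src e ∈ I ∪ Z ∧ dst e ∈ I ∪ Z

/-- Let `S` be a tangential 2-block over GF(2) which is the cographic matroid of a finite graph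
without isolated vertices.  Then the graph has no circuits with at most four edges, at least three
edges at each vertex, of the two sides of a separation of order `k ≤ 4` one has at most `k - 2`
vertices (none if `k ≤ 2`), and edge cuts with three vertices on both sides have at least five
edges. -/
theorem result :
    ∀ (n : ℕ) (S : Set (Fin n → ZMod 2)) (V E : Type) [Fintype V] [DecidableEq V] [Fintype E]
      [DecidableEq E] (src dst : E → V) (vec : E → Fin n → ZMod 2),
      RepresentsCographic src dst vec → Function.Injective vec → Set.range vec = S →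
      (∀ v, ∃ e, src e = v ∨ dst e = v) → IsTangential S →
      ((∀ e, src e ≠ dst e) ∧
        (∀ e e', (src e = src e' ∧ dst e = dst e') ∨ (src e = dst e' ∧ dst e = src e') → e = e') ∧
        (∀ x y z, Adj src dst x y → Adj src dst y z → ¬ Adj src dst z x) ∧
        (∀ w x y z, w ≠ y → x ≠ z → Adj src dst w x → Adj src dst x y → Adj src dst y z →
          ¬ Adj src dst z w)) ∧
      (∀ v, 3 ≤ (cut src dst {v}).card) ∧
      (∀ Z I : Finset V, Separates src dst Z I → Z.card ≤ 4 →
        I.card ≤ Z.card - 2 ∨ ((I ∪ Z)ᶜ).card ≤ Z.card - 2) ∧
      (∀ Y : Finset V, 3 ≤ Y.card → 3 ≤ (Yᶜ).card → 5 ≤ (cut src dst Y).card) := by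
  intro n S V E _ _ _ _ src dst vec hv hinj hr hiso htan
  obtain ⟨hM, hlp⟩ := N399.TB.tang_minCx hv hr hinj htan.1.1 htan.1.2 htan.2
  have hn : ∀ v, TH676.T4.Nis src dst v := by
    intro v
    obtain ⟨e, he⟩ := hiso v
    exact ⟨e, hlp e, he⟩
  refine ⟨⟨hlp, ?_, ?_, ?_⟩, ?_, fun Z I h hZ => N399.TB.sep_le hM hn h.2 h.1 hZ,
    fun Y h1 h2 => N399.TB.cut_le hM hn h1 h2⟩
  · intro e e' h
    refine TH169.P5.smp V E src dst hM e e' (src e) (dst e) (hlp e) (Or.inl ⟨rfl, rfl⟩) ?_
    rcases h with ⟨h1, h2⟩ | ⟨h1, h2⟩
    · exact Or.inl ⟨h1.symm, h2.symm⟩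
    · exact Or.inr ⟨h2.symm, h1.symm⟩
  · rintro x y z ⟨h1, e1⟩ ⟨h2, e2⟩ ⟨h3, e3⟩
    exact TH169.P5.tri V E src dst hM x y z h1 h3.symm h2 e1 e2 e3
  · rintro w x y z h1 h2 ⟨k1, e1⟩ ⟨k2, e2⟩ ⟨k3, e3⟩ ⟨k4, e4⟩
    exact TH169.P5.quad V E src dst hM w x y z k1 h1 k4.symm k2 h2 k3 e1 e2 e3 e4
  · intro v
    obtain ⟨e, he⟩ := hiso v
    obtain ⟨y, hy⟩ : ∃ y, y ≠ v := by
      rcases he with h | h
      · exact ⟨dst e, fun h2 => hlp e (h.trans h2.symm)⟩
      · exact ⟨src e, fun h2 => hlp e (h2.trans h.symm)⟩
    exact TH676.T4.cut3 hM (Finset.mem_singleton_self v) (fun h => hy (Finset.mem_singleton.mp h))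
      (hn v) (hn y)

end Pool.Agent.Results.MP_aa6b05_co.InternallyFiveConnected
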